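import Pool.Agent.H87.D3.Targets2
import Pool.Agent.H14.SN.ROT

/-! Row WTS of the board d3h: facts on the weights. -/

set_option autoImplicit false

namespace Pool.Agent.H30.D3

open MeasureTheory Metric Set Filter Topology Pool.Agent.H87.SN Pool.Agent.H87.SH Pool.Agent.H87.AX
open Pool.Agent.H87.D3
open scoped ContDiff RealInnerProductSpace ENNReal

noncomputable section

/-- the coordinates -/
def cf (i : Fin (1 + 2)) : V →L[ℝ] ℝ := EuclideanSpace.proj i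

theorem cf_ap (i : Fin (1 + 2)) (v : V) : cf i v = v i := rfl

theorem hasF_cf (i : Fin (1 + 2)) (x : V) : HasFDerivAt (fun y : V => y i) (cf i) x :=
  (cf i).hasFDerivAt

theorem contDiff_cf (i : Fin (1 + 2)) : ContDiff ℝ ∞ (fun y : V => y i) := (cf i).contDiff

theorem DD_pos {σ : ℝ} (hσ : 0 < σ) (x : V) : 0 < DD σ x := by
  unfold DD
  have := sq_nonneg (x 0)
  have := sq_nonneg (x 1)
  have := sq_nonneg (x 2)
  have : 0 < σ ^ 2 := by positivity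
  linarith

theorem hasF_DD (σ : ℝ) (x : V) :
    HasFDerivAt (DD σ) ((2 * x 0) • cf 0 + (2 * x 1) • cf 1 + (x 2 / 50) • cf 2) x := by
  have h := ((((hasF_cf 0 x).pow 2).const_add (σ ^ 2)).add ((hasF_cf 1 x).pow 2)).add
    (((hasF_cf 2 x).pow 2).mul_const (100 : ℝ)⁻¹)
  have e : (DD σ) = fun y : V => σ ^ 2 + y 0 ^ 2 + y 1 ^ 2 + y 2 ^ 2 * (100 : ℝ)⁻¹ := by
    funext y
    simp only [DD, div_eq_mul_inv]
  rw [e]
  refine h.congr_fderiv ?_
  ext v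
  simp only [_root_.add_apply, _root_.smul_apply, cf_ap, smul_eq_mul,
    pow_one, Nat.cast_ofNat, Nat.add_one_sub_one]
  ring

theorem contDiff_DD (σ : ℝ) : ContDiff ℝ ∞ (DD σ) := by
  unfold DD
  exact ((contDiff_const.add ((contDiff_cf 0).pow 2)).add ((contDiff_cf 1).pow 2)).add
    (((contDiff_cf 2).pow 2).div_const 100)

theorem rho_sq' (x : V) : rho x ^ 2 = x 0 ^ 2 + x 1 ^ 2 := by
  unfold rho
  rw [Real.sq_sqrt (by positivity)]

theorem rho_nn (x : V) : 0 ≤ rho x := Real.sqrt_nonneg _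

theorem rho_le_DD (σ : ℝ) (x : V) : rho x ^ 2 ≤ DD σ x := by
  rw [rho_sq']
  unfold DD
  have := sq_nonneg (x 2)
  have := sq_nonneg σ
  linarith

theorem z_le_DD (σ : ℝ) (x : V) : x 2 ^ 2 ≤ 100 * DD σ x := by
  unfold DD
  have := sq_nonneg (x 0)
  have := sq_nonneg (x 1)
  have := sq_nonneg σ
  linarith

theorem hasF_et {σ : ℝ} (hσ : 0 < σ) (x : V) :
    HasFDerivAt (et σ) ((-(3 / 4) * DD σ x ^ (-(7 / 4) : ℝ)) •
      ((2 * x 0) • cf 0 + (2 * x 1) • cf 1 + (x 2 / 50) • cf 2)) x := by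
  have h := (hasF_DD σ x).rpow_const (p := (-(3 / 4) : ℝ)) (Or.inl (DD_pos hσ x).ne')
  have e : (-(3 / 4) : ℝ) - 1 = -(7 / 4) := by norm_num
  rw [e] at h
  exact h

theorem fd_et {σ : ℝ} (hσ : 0 < σ) (x v : V) :
    fderiv ℝ (et σ) x v = -(3 / 4) * DD σ x ^ (-(7 / 4) : ℝ) *
      (2 * x 0 * v 0 + 2 * x 1 * v 1 + x 2 / 50 * v 2) := by
  rw [(hasF_et hσ x).fderiv]
  simp only [_root_.add_apply, _root_.smul_apply, cf_ap, smul_eq_mul]

theorem Jm_two (x : V) : (Jm 1 x) 2 = 0 := Pool.Agent.H14.SN.Jm_succ x 0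

theorem Pm_two (x : V) : (Pm 1 x) 2 = 0 := Pool.Agent.H14.SN.Pm_succ x 0

theorem kap_et {σ : ℝ} (hσ : 0 < σ) (x : V) :
    kap (et σ) x = 3 / 2 * (rho x ^ 2 * DD σ x ^ (-(7 / 4) : ℝ)) := by
  unfold kap
  rw [fd_et hσ, Pool.Agent.H14.SN.Pm_zero, Pool.Agent.H14.SN.Pm_one, Pm_two, rho_sq']
  ring

theorem p74 {D : ℝ} (hD : 0 < D) : D ^ (-(7 / 4) : ℝ) = D⁻¹ * D ^ (-(3 / 4) : ℝ) := by
  rw [← Real.rpow_neg_one, ← Real.rpow_add hD]
  norm_num

/-- the derivative of rho -/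
theorem hasF_rho {x : V} (hx : 0 < rho x) :
    HasFDerivAt (rho (d := 1)) ((x 0 / rho x) • cf 0 + (x 1 / rho x) • cf 1) x := by
  have hp : 0 < x 0 ^ 2 + x 1 ^ 2 := by
    rw [← rho_sq']
    positivity
  have h := (((hasF_cf 0 x).pow 2).add ((hasF_cf 1 x).pow 2)).sqrt hp.ne'
  refine h.congr_fderiv ?_
  ext v
  have hr : Real.sqrt (x 0 ^ 2 + x 1 ^ 2) = rho x := rfl
  simp only [_root_.add_apply, _root_.smul_apply, cf_ap, smul_eq_mul,
    pow_one, Nat.add_one_sub_one, Pi.add_apply, nsmul_eq_mul, Nat.cast_ofNat]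
  rw [hr]
  field_simp

theorem hasF_ww {σ : ℝ} (hσ : 0 < σ) {x : V} (hx : 0 < rho x) :
    HasFDerivAt (ww σ) ((ww σ x * (3 / 2)) •
      ((x 0 / rho x ^ 2 - 2 * x 0 / DD σ x) • cf 0 + (x 1 / rho x ^ 2 - 2 * x 1 / DD σ x) • cf 1 +
        (-(x 2 / 50 / DD σ x)) • cf 2)) x := by
  have hD := DD_pos hσ x
  have hq : 0 < rho x / DD σ x := div_pos hx hD
  have h1 := (hasF_rho hx).mul ((hasDerivAt_inv hD.ne').comp_hasFDerivAt x (hasF_DD σ x))
  have h2 := (h1.rpow_const (p := (3 / 2 : ℝ)) (Or.inl (by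
    show rho x * (DD σ x)⁻¹ ≠ 0
    rw [← div_eq_mul_inv]
    exact hq.ne'))).const_mul (3 / 2 : ℝ)
  refine (h2.congr_fderiv ?_)
  ext v
  have e : (3 / 2 : ℝ) - 1 = 3 / 2 + -1 := by norm_num
  have hq' : 0 < rho x * (DD σ x)⁻¹ := by
    rw [← div_eq_mul_inv]
    exact hq
  simp only [_root_.add_apply, _root_.smul_apply, cf_ap, smul_eq_mul,
    Function.comp_apply, Pi.mul_apply]
  rw [e, Real.rpow_add hq', Real.rpow_neg_one]
  unfold ww
  rw [div_eq_mul_inv (rho x) (DD σ x)]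
  generalize (rho x * (DD σ x)⁻¹) ^ (3 / 2 : ℝ) = W
  generalize DD σ x = D at hD
  generalize rho x = r at hx
  field_simp
  ring

theorem pf_WTS : T_WTS := by
  intro σ hσ
  refine ⟨?_, DD_pos hσ, fun x => Real.rpow_pos_of_pos (DD_pos hσ x) _, ?_, kap_et hσ, ?_, ?_, ?_, ?_,
    ?_, ?_, ?_⟩
  · exact (contDiff_DD σ).rpow_const_of_ne fun x => (DD_pos hσ x).ne'
  · intro x
    rw [fd_et hσ, Pool.Agent.H14.SN.Jm_zero, Pool.Agent.H14.SN.Jm_one, Jm_two]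
    ring
  · intro x
    rw [kap_et hσ]
    have hD := DD_pos hσ x
    rw [p74 hD]
    unfold et
    have h1 := rho_le_DD σ x
    have h2 : 0 < DD σ x ^ (-(3 / 4) : ℝ) := Real.rpow_pos_of_pos hD _
    have h3 : rho x ^ 2 * (DD σ x)⁻¹ ≤ 1 := by
      rw [← div_eq_mul_inv, div_le_one hD]
      exact h1
    nlinarith
  · intro x
    have hD := DD_pos hσ x
    rw [kap_et hσ, fd_et hσ]
    have b0 : (bv 2 : V) 0 = 0 := by simp [bv]
    have b1 : (bv 2 : V) 1 = 0 := by simp [bv]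
    have b2 : (bv 2 : V) 2 = 1 := by simp [bv]
    rw [b0, b1, b2, p74 hD]
    unfold et
    have h2 : 0 < DD σ x ^ (-(3 / 4) : ℝ) := Real.rpow_pos_of_pos hD _
    have hz := z_le_DD σ x
    generalize DD σ x ^ (-(3 / 4) : ℝ) = W at h2
    generalize DD σ x = D at hD hz
    have e1 : rho x ^ 2 * (-(3 / 4) * (D⁻¹ * W) * (2 * x 0 * 0 + 2 * x 1 * 0 + x 2 / 50 * 1)) ^ 2
        = (rho x ^ 2 * W ^ 2 * D⁻¹) * (9 / 40000 * (x 2 ^ 2 * D⁻¹)) := by ring
    have e2 : 3 / 2 * (rho x ^ 2 * (D⁻¹ * W)) * W / 16 =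
        (rho x ^ 2 * W ^ 2 * D⁻¹) * (3 / 32) := by ring
    rw [e1, e2]
    refine mul_le_mul_of_nonneg_left ?_ (by positivity)
    have h3 : x 2 ^ 2 * D⁻¹ ≤ 100 := by
      rw [← div_eq_mul_inv, div_le_iff₀ hD]
      exact hz
    linarith
  · intro x hx
    have hx' : 0 < rho x := hx
    have hp : x 0 ^ 2 + x 1 ^ 2 ≠ 0 := by
      rw [← rho_sq']
      positivity
    have hr : ContDiffAt ℝ ∞ (rho (d := 1)) x :=
      (((contDiff_cf 0).pow 2).add ((contDiff_cf 1).pow 2)).contDiffAt.sqrt hp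
    have hD : ContDiffAt ℝ ∞ (DD σ) x := (contDiff_DD σ).contDiffAt
    have h := (contDiffAt_const (c := (3 / 2 : ℝ))).mul
      ((hr.div hD (DD_pos hσ x).ne').rpow_const_of_ne (p := (3 / 2 : ℝ))
        (div_pos hx' (DD_pos hσ x)).ne')
    exact h.contDiffWithinAt
  · intro x hx
    unfold ww
    have := Real.rpow_pos_of_pos (div_pos hx (DD_pos hσ x)) (3 / 2 : ℝ)
    positivity
  · intro θ x
    have hr : rho (rot θ x) = rho x := Pool.Agent.H14.SN.rho_rot θ x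
    have hd : DD σ (rot θ x) = DD σ x := by
      unfold DD
      have e : (rot θ x) 2 = x 2 := Pool.Agent.H14.SN.rot_c2 θ x 0
      rw [e]
      have h1 := rho_sq' (rot θ x)
      have h2 := rho_sq' x
      rw [hr] at h1
      linarith
    unfold ww
    rw [hr, hd]
  · intro x hx
    have hD := DD_pos hσ x
    have hg : gsq (ww σ) x = (ww σ x * (3 / 2)) ^ 2 *
        ((x 0 / rho x ^ 2 - 2 * x 0 / DD σ x) ^ 2 + (x 1 / rho x ^ 2 - 2 * x 1 / DD σ x) ^ 2 +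
        (x 2 / 50 / DD σ x) ^ 2) := by
      unfold gsq nsq
      rw [(hasF_ww hσ hx).fderiv]
      rw [Fin.sum_univ_three]
      simp only [_root_.add_apply, _root_.smul_apply, cf_ap, smul_eq_mul,
        Real.norm_eq_abs, sq_abs]
      have b00 : (bv 0 : V) 0 = 1 := by simp [bv]
      have b01 : (bv 0 : V) 1 = 0 := by simp [bv]
      have b02 : (bv 0 : V) 2 = 0 := by simp [bv]
      have b10 : (bv 1 : V) 0 = 0 := by simp [bv]
      have b11 : (bv 1 : V) 1 = 1 := by simp [bv]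
      have b12 : (bv 1 : V) 2 = 0 := by simp [bv]
      have b20 : (bv 2 : V) 0 = 0 := by simp [bv]
      have b21 : (bv 2 : V) 1 = 0 := by simp [bv]
      have b22 : (bv 2 : V) 2 = 1 := by simp [bv]
      rw [b00, b01, b02, b10, b11, b12, b20, b21, b22]
      ring
    rw [hg]
    have h1 := rho_le_DD σ x
    have hz := z_le_DD σ x
    have hs := rho_sq' x
    generalize ww σ x = W
    have e : rho x ^ 2 * ((W * (3 / 2)) ^ 2 *
        ((x 0 / rho x ^ 2 - 2 * x 0 / DD σ x) ^ 2 + (x 1 / rho x ^ 2 - 2 * x 1 / DD σ x) ^ 2 +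
        (x 2 / 50 / DD σ x) ^ 2)) = W ^ 2 * (9 / 4 * (1 - 2 * (rho x ^ 2 / DD σ x)) ^ 2 +
        9 / 10000 * ((rho x ^ 2 / DD σ x) * (x 2 ^ 2 / DD σ x))) := by
      have e1 : (x 0 / rho x ^ 2 - 2 * x 0 / DD σ x) ^ 2 + (x 1 / rho x ^ 2 - 2 * x 1 / DD σ x) ^ 2
          = rho x ^ 2 * (1 / rho x ^ 2 - 2 / DD σ x) ^ 2 := by
        rw [hs]
        ring
      rw [e1]
      generalize DD σ x = D at hD
      generalize rho x = r at hx
      field_simp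
      ring
    rw [e]
    have t1 : rho x ^ 2 / DD σ x ≤ 1 := by
      rw [div_le_one hD]
      exact h1
    have t0 : 0 ≤ rho x ^ 2 / DD σ x := by positivity
    have s1 : x 2 ^ 2 / DD σ x ≤ 100 := by
      rw [div_le_iff₀ hD]
      exact hz
    have s0 : 0 ≤ x 2 ^ 2 / DD σ x := by positivity
    have k : 9 / 4 * (1 - 2 * (rho x ^ 2 / DD σ x)) ^ 2 +
        9 / 10000 * ((rho x ^ 2 / DD σ x) * (x 2 ^ 2 / DD σ x)) ≤ 5 / 2 := by
      generalize rho x ^ 2 / DD σ x = t at t0 t1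
      generalize x 2 ^ 2 / DD σ x = s at s0 s1
      have : t * s ≤ 100 := by nlinarith
      nlinarith
    calc W ^ 2 * _ ≤ W ^ 2 * (5 / 2) := mul_le_mul_of_nonneg_left k (sq_nonneg W)
      _ = 5 / 2 * W ^ 2 := by ring
  · intro x hx
    have hD := DD_pos hσ x
    rw [kap_et hσ]
    unfold ww
    refine mul_le_mul_of_nonneg_left ?_ (by norm_num)
    rw [Real.div_rpow hx.le hD.le]
    have e1 : rho x ^ 2 = rho x ^ (3 / 2 : ℝ) * rho x ^ (1 / 2 : ℝ) := by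
      rw [← Real.rpow_add hx, ← Real.rpow_natCast]
      norm_num
    have e2 : DD σ x ^ (-(7 / 4) : ℝ) = DD σ x ^ (-(3 / 2) : ℝ) * DD σ x ^ (-(1 / 4) : ℝ) := by
      rw [← Real.rpow_add hD]
      norm_num
    have e3 : rho x ^ (1 / 2 : ℝ) ≤ DD σ x ^ (1 / 4 : ℝ) := by
      have h := Real.rpow_le_rpow (by positivity) (rho_le_DD σ x) (by norm_num : (0 : ℝ) ≤ 1 / 4)
      refine le_trans (le_of_eq ?_) h
      rw [← Real.rpow_natCast, ← Real.rpow_mul hx.le]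
      norm_num
    rw [e1, e2, Real.rpow_neg hD.le (3 / 2), Real.rpow_neg hD.le (1 / 4)]
    have p1 : 0 < rho x ^ (3 / 2 : ℝ) := Real.rpow_pos_of_pos hx _
    have p2 : 0 < DD σ x ^ (3 / 2 : ℝ) := Real.rpow_pos_of_pos hD _
    have p3 : 0 < DD σ x ^ (1 / 4 : ℝ) := Real.rpow_pos_of_pos hD _
    have e4 : rho x ^ (3 / 2 : ℝ) * rho x ^ (1 / 2 : ℝ) *
        ((DD σ x ^ (3 / 2 : ℝ))⁻¹ * (DD σ x ^ (1 / 4 : ℝ))⁻¹) =
        rho x ^ (3 / 2 : ℝ) / DD σ x ^ (3 / 2 : ℝ) *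
          (rho x ^ (1 / 2 : ℝ) * (DD σ x ^ (1 / 4 : ℝ))⁻¹) := by
      rw [div_eq_mul_inv]
      ring
    rw [e4]
    have e5 : rho x ^ (1 / 2 : ℝ) * (DD σ x ^ (1 / 4 : ℝ))⁻¹ ≤ 1 := by
      rw [← div_eq_mul_inv, div_le_one p3]
      exact e3
    calc _ ≤ rho x ^ (3 / 2 : ℝ) / DD σ x ^ (3 / 2 : ℝ) * 1 :=
          mul_le_mul_of_nonneg_left e5 (by positivity)
      _ = _ := mul_one _

end

end Pool.Agent.H30.D3
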